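import Pool.Agent.H586.AF.A

set_option autoImplicit false

open MeasureTheory Filter Topology

namespace Pool.Agent.H230.AF

open Pool.Agent.H586.AF

/-- the half line -/
noncomputable abbrev hl : Measure ℝ := (volume : Measure ℝ).restrict (Set.Ioi (0:ℝ))

theorem map_add : Measure.map (fun p : ℝ × ℝ => p.1 + p.2) (hl.prod hl) =
    (volume : Measure ℝ).withDensity (fun u => ENNReal.ofReal u) := by
  ext s hs
  rw [Measure.map_apply (by fun_prop) hs, withDensity_apply _ hs]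
  have hT : MeasurableSet {p : ℝ × ℝ | p.1 < p.2 ∧ p.2 ∈ s} :=
    (measurableSet_lt measurable_fst measurable_snd).inter (measurable_snd hs)
  have hA : MeasurableSet ((fun p : ℝ × ℝ => p.1 + p.2) ⁻¹' s) :=
    (by fun_prop : Measurable fun p : ℝ × ℝ => p.1 + p.2) hs
  have h1 : (hl.prod hl) ((fun p : ℝ × ℝ => p.1 + p.2) ⁻¹' s) =
      (hl.prod (volume : Measure ℝ)) {p : ℝ × ℝ | p.1 < p.2 ∧ p.2 ∈ s} := by
    rw [Measure.prod_apply hA, Measure.prod_apply hT]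
    apply lintegral_congr
    intro t
    have h2 : (Prod.mk t ⁻¹' ((fun p : ℝ × ℝ => p.1 + p.2) ⁻¹' s)) ∩ Set.Ioi (0:ℝ) =
        (fun y => t + y) ⁻¹' (Prod.mk t ⁻¹' {p : ℝ × ℝ | p.1 < p.2 ∧ p.2 ∈ s}) := by
      ext y
      simp only [Set.mem_inter_iff, Set.mem_preimage, Set.mem_Ioi, Set.mem_ofPred_eq]
      constructor
      · rintro ⟨h3, h4⟩
        exact ⟨by linarith, h3⟩
      · rintro ⟨h3, h4⟩
        exact ⟨h4, by linarith⟩
    rw [Measure.restrict_apply (measurable_prodMk_left hA), h2, measure_preimage_add]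
  rw [h1, Measure.prod_apply_symm hT, ← lintegral_indicator hs]
  apply lintegral_congr
  intro u
  have h3 : MeasurableSet ((fun x : ℝ => (x, u)) ⁻¹' {p : ℝ × ℝ | p.1 < p.2 ∧ p.2 ∈ s}) :=
    measurable_prodMk_right hT
  rw [Measure.restrict_apply h3]
  by_cases hu : u ∈ s
  · rw [Set.indicator_of_mem hu]
    have h4 : (fun x : ℝ => (x, u)) ⁻¹' {p : ℝ × ℝ | p.1 < p.2 ∧ p.2 ∈ s} ∩ Set.Ioi 0 =
        Set.Ioo 0 u := by
      ext x
      simp only [Set.mem_inter_iff, Set.mem_preimage, Set.mem_Ioi, Set.mem_ofPred_eq, Set.mem_Ioo]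
      exact ⟨fun h => ⟨h.2, h.1.1⟩, fun h => ⟨⟨h.2, hu⟩, h.1⟩⟩
    rw [h4, Real.volume_Ioo, sub_zero]
  · rw [Set.indicator_of_notMem hu]
    have h4 : (fun x : ℝ => (x, u)) ⁻¹' {p : ℝ × ℝ | p.1 < p.2 ∧ p.2 ∈ s} ∩ Set.Ioi 0 = ∅ := by
      ext x
      simp only [Set.mem_inter_iff, Set.mem_preimage, Set.mem_Ioi, Set.mem_ofPred_eq,
        Set.mem_empty_iff_false, iff_false]
      exact fun h => hu h.1.2
    rw [h4, measure_empty]

theorem int_add {f : ℝ → ℝ} (hf : Measurable f)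
    (hi : IntegrableOn (fun u => u * f u) (Set.Ioi 0)) :
    Integrable (fun p : ℝ × ℝ => f (p.1 + p.2)) (hl.prod hl) ∧
      ∫ p, f (p.1 + p.2) ∂(hl.prod hl) = ∫ u in Set.Ioi (0:ℝ), u * f u := by
  have hm : AEMeasurable (fun p : ℝ × ℝ => p.1 + p.2) (hl.prod hl) := by fun_prop
  have hO : Measurable (fun u : ℝ => ENNReal.ofReal u) := ENNReal.measurable_ofReal
  have hlt : ∀ᵐ u ∂(volume : Measure ℝ), ENNReal.ofReal u < ⊤ :=
    Eventually.of_forall fun _ => ENNReal.ofReal_lt_top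
  have hind : (fun u : ℝ => (ENNReal.ofReal u).toReal • f u) =
      (Set.Ioi (0:ℝ)).indicator (fun u => u * f u) := by
    funext u
    rcases le_or_gt u 0 with h | h
    · rw [Set.indicator_of_notMem (by simpa using h), ENNReal.ofReal_of_nonpos h]
      simp
    · rw [Set.indicator_of_mem (by simpa using h), ENNReal.toReal_ofReal h.le, smul_eq_mul]
  constructor
  · have h1 : Integrable f (Measure.map (fun p : ℝ × ℝ => p.1 + p.2) (hl.prod hl)) := by
      rw [map_add, integrable_withDensity_iff_integrable_smul' hO hlt, hind,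
        integrable_indicator_iff measurableSet_Ioi]
      exact hi
    exact (integrable_map_measure hf.aestronglyMeasurable hm).1 h1
  · have h1 := integral_map (f := f) hm hf.aestronglyMeasurable
    rw [← h1, map_add, integral_withDensity_eq_integral_toReal_smul hO hlt, hind,
      integral_indicator measurableSet_Ioi]


theorem tele4 {x1 x2 x3 x4 y1 y2 y3 y4 B δ : ℝ}
    (h2 : |x2| ≤ B) (h3 : |x3| ≤ B) (h4 : |x4| ≤ B) (k1 : |y1| ≤ B) (k2 : |y2| ≤ B)
    (k3 : |y3| ≤ B) (d1 : |x1 - y1| ≤ δ) (d2 : |x2 - y2| ≤ δ) (d3 : |x3 - y3| ≤ δ)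
    (d4 : |x4 - y4| ≤ δ) : |x1 * x2 * x3 * x4 - y1 * y2 * y3 * y4| ≤ 4 * δ * B ^ 3 := by
  have hδ : 0 ≤ δ := (abs_nonneg _).trans d1
  have e : x1 * x2 * x3 * x4 - y1 * y2 * y3 * y4 = (x1 - y1) * x2 * x3 * x4 +
      y1 * (x2 - y2) * x3 * x4 + y1 * y2 * (x3 - y3) * x4 + y1 * y2 * y3 * (x4 - y4) := by ring
  have p : ∀ {a b c d α β γ ε : ℝ}, |a| ≤ α → |b| ≤ β → |c| ≤ γ → |d| ≤ ε →
      |a * b * c * d| ≤ α * β * γ * ε := by
    intro a b c d α β γ ε ha hb hc hd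
    have hα := (abs_nonneg a).trans ha
    have hβ := (abs_nonneg b).trans hb
    have hγ := (abs_nonneg c).trans hc
    rw [abs_mul, abs_mul, abs_mul]
    exact mul_le_mul (mul_le_mul (mul_le_mul ha hb (abs_nonneg _) hα) hc (abs_nonneg _)
      (mul_nonneg hα hβ)) hd (abs_nonneg _) (mul_nonneg (mul_nonneg hα hβ) hγ)
  have q1 := p d1 h2 h3 h4
  have q2 := p k1 d2 h3 h4
  have q3 := p k1 k2 d3 h4
  have q4 := p k1 k2 k3 d4
  rw [e]
  have t1 := abs_add_le ((x1 - y1) * x2 * x3 * x4 +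
      y1 * (x2 - y2) * x3 * x4 + y1 * y2 * (x3 - y3) * x4) (y1 * y2 * y3 * (x4 - y4))
  have t2 := abs_add_le ((x1 - y1) * x2 * x3 * x4 +
      y1 * (x2 - y2) * x3 * x4) (y1 * y2 * (x3 - y3) * x4)
  have t3 := abs_add_le ((x1 - y1) * x2 * x3 * x4) (y1 * (x2 - y2) * x3 * x4)
  have r1 : δ * B * B * B = δ * B ^ 3 := by ring
  have r2 : B * δ * B * B = δ * B ^ 3 := by ring
  have r3 : B * B * δ * B = δ * B ^ 3 := by ring
  have r4 : B * B * B * δ = δ * B ^ 3 := by ring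
  rw [r1] at q1
  rw [r2] at q2
  rw [r3] at q3
  rw [r4] at q4
  linarith

theorem rp32 {u : ℝ} (hu : 0 ≤ u) : u ^ (3 / 2 : ℝ) = (Real.sqrt u) ^ 3 := by
  rw [Real.sqrt_eq_rpow, ← Real.rpow_natCast, ← Real.rpow_mul hu]
  norm_num

/-- the integrand of the main term -/
noncomputable def psi (u : ℝ) : ℝ := u * (gg u * gg u * hh u * hh u)

theorem psi_near {C1 : ℝ} (hC1 : 1 ≤ C1) (u : ℝ) (hu : 1 ≤ u)
    (a1 : |hh u - 1 / Real.sqrt (4 * Real.pi * u)| ≤ C1 / u ^ (3 / 2 : ℝ))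
    (a2 : |gg u - 4 / Real.sqrt (4 * Real.pi * u)| ≤ C1 / u ^ (3 / 2 : ℝ))
    (b1 : 0 ≤ hh u) (b2 : hh u ≤ C1 / Real.sqrt (1 + u)) (b3 : 0 ≤ gg u)
    (b4 : gg u ≤ C1 / Real.sqrt (1 + u)) :
    |psi u - 1 / Real.pi ^ 2 * u⁻¹| ≤ 4 * C1 * (C1 + 2) ^ 3 * (u ^ 2)⁻¹ := by
  have hu0 : 0 < u := by linarith
  have hpi := Real.pi_pos
  set q : ℝ := Real.sqrt u with hq
  have hq0 : 0 < q := Real.sqrt_pos.2 hu0
  have hqq : q ^ 2 = u := Real.sq_sqrt hu0.le
  have hP : Real.sqrt (4 * Real.pi * u) = Real.sqrt (4 * Real.pi) * q := by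
    rw [hq, ← Real.sqrt_mul (by positivity)]
  set P : ℝ := Real.sqrt (4 * Real.pi) with hPdef
  have hPP : P ^ 2 = 4 * Real.pi := Real.sq_sqrt (by positivity)
  have hP3 : 3 ≤ P := by
    rw [hPdef]
    apply Real.le_sqrt_of_sq_le
    nlinarith [Real.pi_gt_three]
  have hP0 : 0 < P := by linarith
  rw [rp32 hu0.le, hP] at a1 a2
  have hs : C1 / Real.sqrt (1 + u) ≤ (C1 + 2) / q := by
    have h1 : q ≤ Real.sqrt (1 + u) := Real.sqrt_le_sqrt (by linarith)
    exact div_le_div₀ (by linarith) (by linarith) hq0 h1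
  have y1 : |4 / (P * q)| ≤ (C1 + 2) / q := by
    rw [abs_of_nonneg (by positivity), div_le_div_iff₀ (by positivity) hq0]
    have h1 : 4 ≤ (C1 + 2) * P := by nlinarith
    nlinarith
  have y3 : |1 / (P * q)| ≤ (C1 + 2) / q := by
    rw [abs_of_nonneg (by positivity), div_le_div_iff₀ (by positivity) hq0]
    have h1 : 1 ≤ (C1 + 2) * P := by nlinarith
    nlinarith
  have g1 : |gg u| ≤ (C1 + 2) / q := by rw [abs_of_nonneg b3]; exact b4.trans hs
  have g3 : |hh u| ≤ (C1 + 2) / q := by rw [abs_of_nonneg b1]; exact b2.trans hs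
  have hB : 0 ≤ (C1 + 2) / q := by positivity
  have hT := tele4 g1 g3 g3 y1 y1 y3 a2 a2 a1 a1
  have hy : 4 / (P * q) * (4 / (P * q)) * (1 / (P * q)) * (1 / (P * q)) =
      1 / (Real.pi ^ 2 * u ^ 2) := by
    have h1 : (P * q) ^ 4 = 16 * Real.pi ^ 2 * u ^ 2 := by
      have : (P * q) ^ 4 = (P ^ 2) ^ 2 * (q ^ 2) ^ 2 := by ring
      rw [this, hPP, hqq]
      ring
    have h2 : 4 / (P * q) * (4 / (P * q)) * (1 / (P * q)) * (1 / (P * q)) = 16 / (P * q) ^ 4 := by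
      field_simp
      norm_num
    rw [h2, h1]
    field_simp
  have hr : 4 * (C1 / q ^ 3) * ((C1 + 2) / q) ^ 3 = 4 * C1 * (C1 + 2) ^ 3 / u ^ 3 := by
    rw [← hqq]
    field_simp
  rw [hy, hr] at hT
  have e : psi u - 1 / Real.pi ^ 2 * u⁻¹ =
      u * (gg u * gg u * hh u * hh u - 1 / (Real.pi ^ 2 * u ^ 2)) := by
    rw [psi]
    field_simp
  rw [e, abs_mul, abs_of_pos hu0]
  calc u * |gg u * gg u * hh u * hh u - 1 / (Real.pi ^ 2 * u ^ 2)| ≤
      u * (4 * C1 * (C1 + 2) ^ 3 / u ^ 3) := mul_le_mul_of_nonneg_left hT hu0.le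
    _ = 4 * C1 * (C1 + 2) ^ 3 * (u ^ 2)⁻¹ := by field_simp

theorem main_term {C1 : ℝ} (hC1 : 1 ≤ C1)
    (hasy : ∀ t : ℝ, 1 ≤ t →
      |hh t - 1 / Real.sqrt (4 * Real.pi * t)| ≤ C1 / t ^ (3 / 2 : ℝ) ∧
      |gg t - 4 / Real.sqrt (4 * Real.pi * t)| ≤ C1 / t ^ (3 / 2 : ℝ))
    (hbd : ∀ t : ℝ, 0 ≤ t → 0 ≤ hh t ∧ hh t ≤ C1 / Real.sqrt (1 + t) ∧ 0 ≤ gg t ∧
      gg t ≤ C1 / Real.sqrt (1 + t)) (hhc : Continuous hh) (hgc : Continuous gg)
    (L : ℕ) (hL : 2 ≤ L) :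
    |(∫ u in (0:ℝ)..((L:ℝ) ^ 2), psi u) - 2 / Real.pi ^ 2 * Real.log L| ≤
      C1 ^ 4 + 4 * C1 * (C1 + 2) ^ 3 := by
  have hL2 : (2:ℝ) ≤ L := by exact_mod_cast hL
  set X : ℝ := (L:ℝ) ^ 2 with hX
  have hX1 : 1 ≤ X := by nlinarith
  have hpc : Continuous psi := by
    unfold psi
    fun_prop
  have hp1 : |∫ u in (0:ℝ)..1, psi u| ≤ C1 ^ 4 := by
    have h1 := intervalIntegral.norm_integral_le_of_norm_le_const (a := 0) (b := 1) (f := psi)
      (C := C1 ^ 4) (by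
        intro x hx
        rw [Set.uIoc_of_le zero_le_one] at hx
        obtain ⟨b1, b2, b3, b4⟩ := hbd x hx.1.le
        have hs : C1 / Real.sqrt (1 + x) ≤ C1 := by
          apply div_le_self (by linarith)
          rw [Real.one_le_sqrt]
          linarith [hx.1]
        have c2 := b2.trans hs
        have c4 := b4.trans hs
        have hnn : 0 ≤ gg x * gg x * hh x * hh x := by positivity
        rw [Real.norm_eq_abs, psi, abs_of_nonneg (mul_nonneg hx.1.le hnn)]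
        have h2 : gg x * gg x * hh x * hh x ≤ C1 * C1 * C1 * C1 := by gcongr
        calc x * (gg x * gg x * hh x * hh x) ≤ 1 * (gg x * gg x * hh x * hh x) :=
              mul_le_mul_of_nonneg_right hx.2 hnn
          _ ≤ C1 ^ 4 := by rw [one_mul]; refine h2.trans (le_of_eq (by ring)))
    simpa using h1
  have hinv : IntervalIntegrable (fun u : ℝ => 1 / Real.pi ^ 2 * u⁻¹) volume 1 X := by
    apply ContinuousOn.intervalIntegrable
    rw [Set.uIcc_of_le hX1]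
    apply ContinuousOn.mul continuousOn_const
    apply continuousOn_inv₀.mono
    intro x hx
    have h1 := hx.1
    exact Set.mem_compl_singleton_iff.2 (by linarith : (0:ℝ) < x).ne'
  have hp2 : |∫ u in (1:ℝ)..X, (psi u - 1 / Real.pi ^ 2 * u⁻¹)| ≤ 4 * C1 * (C1 + 2) ^ 3 := by
    have hg : ContinuousOn (fun u : ℝ => 4 * C1 * (C1 + 2) ^ 3 * (u ^ 2)⁻¹) (Set.uIcc 1 X) := by
      rw [Set.uIcc_of_le hX1]
      apply ContinuousOn.mul continuousOn_const
      apply ContinuousOn.inv₀ (by fun_prop)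
      intro x hx
      have := hx.1
      positivity
    have h1 := intervalIntegral.norm_integral_le_of_norm_le (μ := volume)
      (f := fun u => psi u - 1 / Real.pi ^ 2 * u⁻¹)
      (g := fun u => 4 * C1 * (C1 + 2) ^ 3 * (u ^ 2)⁻¹) hX1
      (Eventually.of_forall fun u hu => by
        obtain ⟨a1, a2⟩ := hasy u hu.1.le
        obtain ⟨b1, b2, b3, b4⟩ := hbd u (by linarith [hu.1])
        rw [Real.norm_eq_abs]
        exact psi_near hC1 u hu.1.le a1 a2 b1 b2 b3 b4) hg.intervalIntegrable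
    rw [Real.norm_eq_abs] at h1
    refine h1.trans ?_
    rw [intervalIntegral.integral_const_mul]
    have h2 : ∫ u in (1:ℝ)..X, (u ^ 2)⁻¹ = -X⁻¹ - -(1:ℝ)⁻¹ := by
      apply intervalIntegral.integral_eq_sub_of_hasDerivAt (f := fun u : ℝ => -u⁻¹)
      · intro x hx
        rw [Set.uIcc_of_le hX1] at hx
        have hx0 : x ≠ 0 := by
          have := hx.1
          intro h0
          rw [h0] at this
          linarith
        have h7 : HasDerivAt (fun u : ℝ => -u⁻¹) (-(-(x ^ 2)⁻¹)) x := (hasDerivAt_inv hx0).neg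
        rw [neg_neg] at h7
        exact h7
      · apply ContinuousOn.intervalIntegrable
        rw [Set.uIcc_of_le hX1]
        apply ContinuousOn.inv₀ (by fun_prop)
        intro x hx
        have := hx.1
        positivity
    rw [h2]
    have h3 : 0 ≤ X⁻¹ := by positivity
    have h4 : 0 ≤ 4 * C1 * (C1 + 2) ^ 3 := by positivity
    have h5 : -X⁻¹ - -(1:ℝ)⁻¹ ≤ 1 := by
      rw [inv_one]
      linarith
    nlinarith
  have hp3 : ∫ u in (1:ℝ)..X, 1 / Real.pi ^ 2 * u⁻¹ = 2 / Real.pi ^ 2 * Real.log L := by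
    rw [intervalIntegral.integral_const_mul, integral_inv_of_pos one_pos (by linarith), div_one,
      hX, Real.log_pow]
    push_cast
    ring
  have hadd : ∫ u in (0:ℝ)..X, psi u = (∫ u in (0:ℝ)..1, psi u) + ∫ u in (1:ℝ)..X, psi u :=
    (intervalIntegral.integral_add_adjacent_intervals (hpc.intervalIntegrable _ _)
      (hpc.intervalIntegrable _ _)).symm
  rw [intervalIntegral.integral_sub (hpc.intervalIntegrable _ _) hinv, hp3] at hp2
  rw [hadd]
  have h1 := abs_add_le (∫ u in (0:ℝ)..1, psi u)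
    ((∫ u in (1:ℝ)..X, psi u) - 2 / Real.pi ^ 2 * Real.log L)
  have h2 : (∫ u in (0:ℝ)..1, psi u) + (∫ u in (1:ℝ)..X, psi u) - 2 / Real.pi ^ 2 * Real.log L =
      (∫ u in (0:ℝ)..1, psi u) +
        ((∫ u in (1:ℝ)..X, psi u) - 2 / Real.pi ^ 2 * Real.log L) := by ring
  rw [h2]
  linarith


/-- dominating function -/
noncomputable def EE (A B r : ℝ) (l : ℝ) (u : ℝ) : ℝ :=
  A * l ^ 3 * (u ^ (-(3 / 2) : ℝ) * Real.exp (-(r * u))) + B * Real.exp (-(r * u))

/-- main function -/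
noncomputable def ph (l : ℝ) (u : ℝ) : ℝ :=
  (Set.Iic (l ^ 2)).indicator (fun u => l ^ 4 * (gg u * gg u * hh u * hh u)) u

theorem meas_EE (A B r l : ℝ) : Measurable (EE A B r l) := by
  unfold EE
  have h1 : Measurable fun u : ℝ => u ^ (-(3 / 2) : ℝ) := measurable_id.pow_const _
  have h2 : Measurable fun u : ℝ => Real.exp (-(r * u)) := by fun_prop
  exact ((h1.mul h2).const_mul _).add (h2.const_mul _)

theorem gam {a r : ℝ} (ha : 0 < a) (hr : 0 < r) :
    IntegrableOn (fun u : ℝ => u ^ (a - 1) * Real.exp (-(r * u))) (Set.Ioi 0) := by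
  have h1 := integrableOn_rpow_mul_exp_neg_mul_rpow (p := 1) (s := a - 1) (b := r) (by linarith)
    one_pos hr
  refine h1.congr_fun (fun u _ => ?_) measurableSet_Ioi
  simp only [Real.rpow_one, neg_mul]

theorem int_EE (A B r l : ℝ) (hr : 0 < r) :
    IntegrableOn (fun u => u * EE A B r l u) (Set.Ioi 0) ∧
      ∫ u in Set.Ioi (0:ℝ), u * EE A B r l u =
        A * l ^ 3 * ((1 / r) ^ (1 / 2 : ℝ) * Real.Gamma (1 / 2)) +
          B * ((1 / r) ^ (2 : ℝ) * Real.Gamma 2) := by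
  have hW1 := (gam (a := 1 / 2) (by norm_num) hr).const_mul (A * l ^ 3)
  have hW2 := (gam (a := 2) (by norm_num) hr).const_mul B
  have hW : IntegrableOn (fun u : ℝ => A * l ^ 3 * (u ^ ((1 / 2 : ℝ) - 1) * Real.exp (-(r * u))) +
      B * (u ^ ((2 : ℝ) - 1) * Real.exp (-(r * u)))) (Set.Ioi 0) := hW1.add hW2
  have heq : ∀ u ∈ Set.Ioi (0:ℝ), A * l ^ 3 * (u ^ ((1 / 2 : ℝ) - 1) * Real.exp (-(r * u))) +
      B * (u ^ ((2 : ℝ) - 1) * Real.exp (-(r * u))) = u * EE A B r l u := by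
    intro u hu
    have hu0 : (0:ℝ) < u := hu
    have h1 : u ^ ((1 / 2 : ℝ) - 1) = u * u ^ (-(3 / 2) : ℝ) := by
      have h2 : ((1 / 2 : ℝ) - 1) = 1 + -(3 / 2) := by norm_num
      rw [h2, Real.rpow_add hu0, Real.rpow_one]
    have h3 : u ^ ((2 : ℝ) - 1) = u := by
      have h4 : (2 : ℝ) - 1 = 1 := by norm_num
      rw [h4, Real.rpow_one]
    rw [h1, h3, EE]
    ring
  refine ⟨hW.congr_fun heq measurableSet_Ioi, ?_⟩
  rw [← setIntegral_congr_fun measurableSet_Ioi heq, integral_add hW1 hW2, integral_const_mul,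
    integral_const_mul, Real.integral_rpow_mul_exp_neg_mul_Ioi (by norm_num) hr,
    Real.integral_rpow_mul_exp_neg_mul_Ioi (by norm_num) hr]

theorem meas_ph (l : ℝ) (hhc : Continuous hh) (hgc : Continuous gg) : Measurable (ph l) := by
  unfold ph
  apply Measurable.indicator _ measurableSet_Iic
  exact (by fun_prop : Continuous fun u => l ^ 4 * (gg u * gg u * hh u * hh u)).measurable

theorem int_ph (l : ℝ) (hhc : Continuous hh) (hgc : Continuous gg) :
    IntegrableOn (fun u => u * ph l u) (Set.Ioi 0) ∧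
      ∫ u in Set.Ioi (0:ℝ), u * ph l u = l ^ 4 * ∫ u in (0:ℝ)..(l ^ 2), psi u := by
  have hpc : Continuous psi := by
    unfold psi
    fun_prop
  have heq : (fun u => u * ph l u) = (Set.Iic (l ^ 2)).indicator (fun u => l ^ 4 * psi u) := by
    funext u
    unfold ph psi
    by_cases hu : u ∈ Set.Iic (l ^ 2)
    · rw [Set.indicator_of_mem hu, Set.indicator_of_mem hu]
      ring
    · rw [Set.indicator_of_notMem hu, Set.indicator_of_notMem hu, mul_zero]
  rw [heq]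
  have hc : Continuous fun u => l ^ 4 * psi u := by fun_prop
  constructor
  · rw [IntegrableOn, integrable_indicator_iff measurableSet_Iic, IntegrableOn,
      Measure.restrict_restrict measurableSet_Iic, Set.inter_comm, Set.Ioi_inter_Iic]
    exact (hc.integrableOn_Icc (a := 0) (b := l ^ 2)).mono_set Set.Ioc_subset_Icc_self
  · rw [setIntegral_indicator measurableSet_Iic, Set.Ioi_inter_Iic,
      ← intervalIntegral.integral_of_le (by positivity), intervalIntegral.integral_const_mul]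

theorem ptw {C0 C1 : ℝ} (hC0 : 1 ≤ C0) (hC1 : 1 ≤ C1) {l τ n1 n2 c d g h : ℝ} (hl : 2 ≤ l)
    (hτ : 0 < τ) (hg0 : 0 ≤ g) (hg : g ≤ C1 / Real.sqrt (1 + τ)) (hh0 : 0 ≤ h)
    (hh' : h ≤ C1 / Real.sqrt (1 + τ)) (h1 : |n1 - l * g| ≤ C0) (h2 : |n2 - l * g| ≤ C0)
    (h3 : |c - l * h| ≤ C0) (h4 : |d - l * h| ≤ C0) (h5 : l ^ 2 ≤ τ → |c| ≤ C0)
    (h6 : l ^ 2 ≤ τ → |d| ≤ C0 * Real.exp (-(τ / (2 * l ^ 2)))) :
    |n1 * n2 * c * d - (if τ ≤ l ^ 2 then l ^ 4 * (g * g * h * h) else 0)| ≤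
      EE (8 * C0 * (C1 + 2 * C0) ^ 3) ((C1 + C0) ^ 2 * C0 ^ 2) (1 / (2 * l ^ 2)) l τ := by
  have hl0 : 0 < l := by linarith
  have hexp : 0 < Real.exp (-(1 / (2 * l ^ 2) * τ)) := Real.exp_pos _
  have hrp : 0 < τ ^ (-(3 / 2) : ℝ) := Real.rpow_pos_of_pos hτ _
  have hsq1 : 1 ≤ Real.sqrt (1 + τ) := by
    rw [Real.one_le_sqrt]
    linarith
  have hs0 : 0 < Real.sqrt (1 + τ) := by linarith
  unfold EE
  split_ifs with hτl
  · -- small τ
    set m : ℝ := l / Real.sqrt (1 + τ) with hm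
    have hm0 : 0 < m := by positivity
    have hm2 : 1 ≤ 2 * m := by
      have e1 : Real.sqrt (1 + τ) ≤ 2 * l := by
        apply Real.sqrt_le_iff.2
        constructor
        · positivity
        · nlinarith
      rw [hm, ← mul_div_assoc, le_div_iff₀ hs0]
      linarith
    have hC0m : C0 ≤ 2 * C0 * m := by nlinarith
    have hlg : |l * g| ≤ (C1 + 2 * C0) * m := by
      rw [abs_of_nonneg (by positivity)]
      have e1 : l * g ≤ l * (C1 / Real.sqrt (1 + τ)) := mul_le_mul_of_nonneg_left hg hl0.le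
      have e2 : l * (C1 / Real.sqrt (1 + τ)) = C1 * m := by rw [hm]; ring
      nlinarith
    have hlg1 : |l * g| ≤ C1 * m := by
      rw [abs_of_nonneg (by positivity)]
      have e1 : l * g ≤ l * (C1 / Real.sqrt (1 + τ)) := mul_le_mul_of_nonneg_left hg hl0.le
      have e2 : l * (C1 / Real.sqrt (1 + τ)) = C1 * m := by rw [hm]; ring
      linarith
    have hlh1 : |l * h| ≤ C1 * m := by
      rw [abs_of_nonneg (by positivity)]
      have e1 : l * h ≤ l * (C1 / Real.sqrt (1 + τ)) := mul_le_mul_of_nonneg_left hh' hl0.le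
      have e2 : l * (C1 / Real.sqrt (1 + τ)) = C1 * m := by rw [hm]; ring
      linarith
    have hlh : |l * h| ≤ (C1 + 2 * C0) * m := by nlinarith
    have key : ∀ x y : ℝ, |x - y| ≤ C0 → |y| ≤ C1 * m → |x| ≤ (C1 + 2 * C0) * m := by
      intro x y hxy hy
      have e1 : x = (x - y) + y := by ring
      have e2 := abs_add_le (x - y) y
      rw [← e1] at e2
      nlinarith
    have hT := tele4 (key _ _ h2 hlg1) (key _ _ h3 hlh1) (key _ _ h4 hlh1) hlg hlg hlh h1 h2 h3 h4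
    have e0 : l * g * (l * g) * (l * h) * (l * h) = l ^ 4 * (g * g * h * h) := by ring
    rw [e0] at hT
    refine hT.trans ?_
    -- `m ^ 3 ≤ l ^ 3 τ ^ (-3/2)`
    have e1 : m ^ 3 ≤ l ^ 3 * τ ^ (-(3 / 2) : ℝ) := by
      rw [hm, div_pow, Real.rpow_neg hτ.le, rp32 hτ.le, div_eq_mul_inv]
      apply mul_le_mul_of_nonneg_left _ (by positivity)
      apply inv_anti₀ (by positivity)
      exact pow_le_pow_left₀ (Real.sqrt_nonneg _) (Real.sqrt_le_sqrt (by linarith)) 3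
    have e2 : (1:ℝ) ≤ 2 * Real.exp (-(1 / (2 * l ^ 2) * τ)) := by
      have e3 := Real.add_one_le_exp (-(1 / (2 * l ^ 2) * τ))
      have e4 : 1 / (2 * l ^ 2) * τ ≤ 1 / 2 := by
        rw [one_div, inv_mul_le_iff₀ (by positivity)]
        linarith
      linarith
    have hK : 0 ≤ 4 * C0 * (C1 + 2 * C0) ^ 3 := by positivity
    have e5 : m ^ 3 ≤ l ^ 3 * τ ^ (-(3 / 2) : ℝ) * (2 * Real.exp (-(1 / (2 * l ^ 2) * τ))) :=
      e1.trans (le_mul_of_one_le_right (by positivity) e2)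
    have e6 : 4 * C0 * ((C1 + 2 * C0) * m) ^ 3 = 4 * C0 * (C1 + 2 * C0) ^ 3 * m ^ 3 := by ring
    rw [e6]
    have e7 := mul_le_mul_of_nonneg_left e5 hK
    have e8 : 0 ≤ (C1 + C0) ^ 2 * C0 ^ 2 * Real.exp (-(1 / (2 * l ^ 2) * τ)) := by positivity
    refine e7.trans ?_
    have e9 : 4 * C0 * (C1 + 2 * C0) ^ 3 * (l ^ 3 * τ ^ (-(3 / 2) : ℝ) *
        (2 * Real.exp (-(1 / (2 * l ^ 2) * τ)))) =
        8 * C0 * (C1 + 2 * C0) ^ 3 * l ^ 3 *
          (τ ^ (-(3 / 2) : ℝ) * Real.exp (-(1 / (2 * l ^ 2) * τ))) := by ring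
    rw [e9]
    linarith
  · push Not at hτl
    have hsl : l ≤ Real.sqrt (1 + τ) := by
      apply Real.le_sqrt_of_sq_le
      linarith
    have hlg : |l * g| ≤ C1 := by
      rw [abs_of_nonneg (by positivity)]
      have e1 : l * g ≤ l * (C1 / Real.sqrt (1 + τ)) := mul_le_mul_of_nonneg_left hg hl0.le
      have e2 : l * (C1 / Real.sqrt (1 + τ)) ≤ C1 := by
        rw [← mul_div_assoc, div_le_iff₀ hs0]
        nlinarith
      linarith
    have key : ∀ x y : ℝ, |x - y| ≤ C0 → |y| ≤ C1 → |x| ≤ C1 + C0 := by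
      intro x y hxy hy
      have e1 : x = (x - y) + y := by ring
      have e2 := abs_add_le (x - y) y
      rw [← e1] at e2
      linarith
    have k1 := key _ _ h1 hlg
    have k2 := key _ _ h2 hlg
    have k3 := h5 hτl.le
    have k4 := h6 hτl.le
    have e3 : τ / (2 * l ^ 2) = 1 / (2 * l ^ 2) * τ := by ring
    rw [e3] at k4
    rw [sub_zero, abs_mul, abs_mul, abs_mul]
    have e4 : |n1| * |n2| * |c| * |d| ≤
        (C1 + C0) * (C1 + C0) * C0 * (C0 * Real.exp (-(1 / (2 * l ^ 2) * τ))) := by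
      have t0 : 0 ≤ C1 + C0 := by linarith
      have t1 : 0 ≤ C0 := by linarith
      exact mul_le_mul (mul_le_mul (mul_le_mul k1 k2 (abs_nonneg _) t0) k3 (abs_nonneg _)
        (mul_nonneg t0 t0)) k4 (abs_nonneg _) (mul_nonneg (mul_nonneg t0 t0) t1)
    have e5 : 0 ≤ 8 * C0 * (C1 + 2 * C0) ^ 3 * l ^ 3 *
          (τ ^ (-(3 / 2) : ℝ) * Real.exp (-(1 / (2 * l ^ 2) * τ))) := by positivity
    have e6 : (C1 + C0) * (C1 + C0) * C0 * (C0 * Real.exp (-(1 / (2 * l ^ 2) * τ))) =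
      (C1 + C0) ^ 2 * C0 ^ 2 * Real.exp (-(1 / (2 * l ^ 2) * τ)) := by ring
    rw [e6] at e4
    linarith

theorem tj (hH : S_H) : S_J := by
  intro C0 hC0
  obtain ⟨C1, hC1, hasy, hbd, hhc, hwc, hgc⟩ := hH
  refine ⟨4 * (8 * C0 * (C1 + 2 * C0) ^ 3) + 4 * ((C1 + C0) ^ 2 * C0 ^ 2) +
    (C1 ^ 4 + 4 * C1 * (C1 + 2) ^ 3), ?_⟩
  intro L hL n1 n2 c d hn1 hn2 hT h1 h2
  have hL2 : (2:ℝ) ≤ L := by exact_mod_cast hL
  have hl0 : (0:ℝ) < L := by linarith
  set l : ℝ := (L:ℝ) with hlL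
  set A : ℝ := 8 * C0 * (C1 + 2 * C0) ^ 3 with hA
  set B : ℝ := (C1 + C0) ^ 2 * C0 ^ 2 with hB
  have hA0 : 0 ≤ A := by positivity
  have hB0 : 0 ≤ B := by positivity
  set r : ℝ := 1 / (2 * l ^ 2) with hr
  have hr0 : 0 < r := by positivity
  obtain ⟨iE, vE⟩ := int_EE A B r l hr0
  obtain ⟨iP, vP⟩ := int_ph l hhc hgc
  obtain ⟨jE, wE⟩ := int_add (meas_EE A B r l) iE
  obtain ⟨jP, wP⟩ := int_add (meas_ph l hhc hgc) iP
  set F : ℝ × ℝ → ℝ := fun p => n1 p.1 p.2 * n2 p.1 p.2 * c (p.1 + p.2) * d (p.1 + p.2) with hF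
  have hFc : Continuous F := by
    have e1 : Continuous fun p : ℝ × ℝ => n1 p.1 p.2 := hn1
    have e2 : Continuous fun p : ℝ × ℝ => n2 p.1 p.2 := hn2
    have e3 : Continuous fun p : ℝ × ℝ => c (p.1 + p.2) :=
      hT.cc.comp (continuous_fst.add continuous_snd)
    have e4 : Continuous fun p : ℝ × ℝ => d (p.1 + p.2) :=
      hT.cd.comp (continuous_fst.add continuous_snd)
    exact ((e1.mul e2).mul e3).mul e4
  have hb : ∀ᵐ p ∂(hl.prod hl), ‖F p - ph l (p.1 + p.2)‖ ≤ EE A B r l (p.1 + p.2) := by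
    rw [Measure.prod_restrict]
    refine ae_restrict_of_forall_mem (measurableSet_Ioi.prod measurableSet_Ioi) ?_
    rintro ⟨t, s⟩ ⟨ht, hs⟩
    have ht' : (0:ℝ) < t := ht
    have hs' : (0:ℝ) < s := hs
    have hts : 0 < t + s := by linarith
    obtain ⟨b1, b2, -, -, b5, b6⟩ := hbd (t + s) hts.le
    have hP := ptw hC0 hC1 hL2 hts b5 b6 b1 b2 (h1 t s ht'.le hs'.le) (h2 t s ht'.le hs'.le)
      (hT.hc (t + s) hts.le) (hT.hd (t + s) hts.le) (fun h => hT.lc (t + s) h)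
      (fun h => hT.ld (t + s) h)
    rw [Real.norm_eq_abs]
    have e1 : ph l (t + s) = if t + s ≤ l ^ 2 then
        l ^ 4 * (gg (t + s) * gg (t + s) * hh (t + s) * hh (t + s)) else 0 := by
      unfold ph
      by_cases h : t + s ≤ l ^ 2
      · rw [Set.indicator_of_mem (by exact h), if_pos h]
      · rw [Set.indicator_of_notMem (by exact h), if_neg h]
    show |F (t, s) - ph l (t + s)| ≤ _
    rw [e1]
    exact hP
  have hdi : Integrable (fun p : ℝ × ℝ => F p - ph l (p.1 + p.2)) (hl.prod hl) := by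
    refine jE.mono' ?_ hb
    have e1 : Measurable fun p : ℝ × ℝ => ph l (p.1 + p.2) :=
      (meas_ph l hhc hgc).comp (measurable_fst.add measurable_snd)
    exact (hFc.measurable.sub e1).aestronglyMeasurable
  have hFi : Integrable F (hl.prod hl) := by
    have e1 := hdi.add jP
    refine e1.congr (Eventually.of_forall fun p => ?_)
    simp
  have hit : ∫ t in Set.Ioi (0 : ℝ), ∫ s in Set.Ioi (0 : ℝ),
      n1 t s * n2 t s * c (t + s) * d (t + s) = ∫ p, F p ∂(hl.prod hl) :=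
    (integral_prod F hFi).symm
  have hdiff : |∫ p, F p ∂(hl.prod hl) - ∫ p, ph l (p.1 + p.2) ∂(hl.prod hl)| ≤
      ∫ p, EE A B r l (p.1 + p.2) ∂(hl.prod hl) := by
    rw [← integral_sub hFi jP, ← Real.norm_eq_abs]
    exact norm_integral_le_of_norm_le jE hb
  rw [wE, vE, wP, vP] at hdiff
  have hEv : A * l ^ 3 * ((1 / r) ^ (1 / 2 : ℝ) * Real.Gamma (1 / 2)) +
      B * ((1 / r) ^ (2 : ℝ) * Real.Gamma 2) ≤ (4 * A + 4 * B) * l ^ 4 := by
    have e1 : 1 / r = 2 * l ^ 2 := by rw [hr]; field_simp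
    have e2 : (2 * l ^ 2) ^ (1 / 2 : ℝ) ≤ 2 * l := by
      rw [← Real.sqrt_eq_rpow]
      apply Real.sqrt_le_iff.2
      constructor
      · positivity
      · nlinarith
    have e3 : Real.Gamma (1 / 2) ≤ 2 := by
      rw [Real.Gamma_one_half_eq]
      apply Real.sqrt_le_iff.2
      constructor
      · norm_num
      · linarith [Real.pi_lt_four]
    have e3' : 0 ≤ Real.Gamma (1 / 2) := (Real.Gamma_pos_of_pos (by norm_num)).le
    have e4 : (2 * l ^ 2) ^ (2 : ℝ) = 4 * l ^ 4 := by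
      rw [Real.rpow_two]
      ring
    rw [e1, e4, Real.Gamma_two]
    have e5 : (2 * l ^ 2) ^ (1 / 2 : ℝ) * Real.Gamma (1 / 2) ≤ 2 * l * 2 :=
      mul_le_mul e2 e3 e3' (by positivity)
    have e6 := mul_le_mul_of_nonneg_left e5 (by positivity : 0 ≤ A * l ^ 3)
    have e7 : A * l ^ 3 * (2 * l * 2) + B * (4 * l ^ 4 * 1) = (4 * A + 4 * B) * l ^ 4 := by ring
    linarith
  have hM := main_term hC1 (fun t ht => ⟨(hasy t ht).1, (hasy t ht).2.2⟩)
    (fun t ht => by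
      obtain ⟨b1, b2, -, -, b5, b6⟩ := hbd t ht
      exact ⟨b1, b2, b5, b6⟩) hhc hgc L hL
  rw [← hlL] at hM
  rw [hit]
  have e1 : ∫ p, F p ∂(hl.prod hl) - 2 / Real.pi ^ 2 * (l ^ 4 * Real.log l) =
      (∫ p, F p ∂(hl.prod hl) - l ^ 4 * ∫ u in (0:ℝ)..(l ^ 2), psi u) +
        l ^ 4 * ((∫ u in (0:ℝ)..(l ^ 2), psi u) - 2 / Real.pi ^ 2 * Real.log l) := by ring
  rw [e1]
  have e2 := abs_add_le (∫ p, F p ∂(hl.prod hl) - l ^ 4 * ∫ u in (0:ℝ)..(l ^ 2), psi u)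
        (l ^ 4 * ((∫ u in (0:ℝ)..(l ^ 2), psi u) - 2 / Real.pi ^ 2 * Real.log l))
  have e3 : |l ^ 4 * ((∫ u in (0:ℝ)..(l ^ 2), psi u) - 2 / Real.pi ^ 2 * Real.log l)| ≤
      l ^ 4 * (C1 ^ 4 + 4 * C1 * (C1 + 2) ^ 3) := by
    rw [abs_mul, abs_of_nonneg (by positivity : (0:ℝ) ≤ l ^ 4)]
    exact mul_le_mul_of_nonneg_left hM (by positivity)
  nlinarith

end Pool.Agent.H230.AF
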